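import Mathlib

/-!
# Dual irregularity strength of finite projective planes is not linear in the order

For every labelling the sum of `(S_L - S_L')^2` over ordered pairs of lines is
`2q (n Σ w² - W²)`, at most `q n² (M-1)² / 2` by Popoviciu's inequality; for distinct line sums it
is at least `n² (n² - 1) / 6`.  Hence `3 (M-1)² ≥ (q+1)(q²+q+2)`.
-/

set_option linter.unusedVariables false

namespace Pool.Agent.Results.MP_aa9284_co.NotLinear

open Finset Configuration

section defs

variable (P L : Type*) [Membership P L] [Fintype P]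

open Classical in
/-- The sum of the labels of the points of the line `l`. -/
noncomputable def lineSum (w : P → ℕ) (l : L) : ℕ := ∑ x ∈ univ.filter (fun x : P => x ∈ l), w x

/-- The labelling `w` is line-irregular: all labels are positive and the line sums are pairwise
distinct. -/
def IsLineIrregular (w : P → ℕ) : Prop :=
  (∀ x, 1 ≤ w x) ∧ Function.Injective (lineSum P L w)

/-- The dual irregularity strength: the least `M` such that some line-irregular labelling has all
labels at most `M`. -/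
noncomputable def dualStrength : ℕ :=
  sInf {M : ℕ | ∃ w : P → ℕ, IsLineIrregular P L w ∧ ∀ x, w x ≤ M}

end defs

/-! ### Distinct integers -/

lemma sum_sub_sq {α : Type*} (s : Finset α) (f : α → ℤ) :
    ∑ i ∈ s, ∑ j ∈ s, (f i - f j) ^ 2 = 2 * (s.card : ℤ) * ∑ i ∈ s, f i ^ 2
      - 2 * (∑ i ∈ s, f i) ^ 2 := by
  have h1 : ∀ i ∈ s, ∑ j ∈ s, (f i - f j) ^ 2
      = (s.card : ℤ) * f i ^ 2 - 2 * f i * ∑ j ∈ s, f j + ∑ j ∈ s, f j ^ 2 := by
    intro i hi
    have h2 : ∀ j ∈ s, (f i - f j) ^ 2 = f i ^ 2 - 2 * f i * f j + f j ^ 2 := fun j _ => by ring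
    rw [Finset.sum_congr rfl h2, Finset.sum_add_distrib, Finset.sum_sub_distrib, Finset.sum_const,
      ← Finset.mul_sum, nsmul_eq_mul]
  rw [Finset.sum_congr rfl h1, Finset.sum_add_distrib, Finset.sum_sub_distrib, Finset.sum_const,
    ← Finset.mul_sum, nsmul_eq_mul, ← Finset.sum_mul, ← Finset.mul_sum]
  ring

lemma sum_range_id_int (n : ℕ) : 2 * ∑ i ∈ range n, (i : ℤ) = (n : ℤ) * (n - 1) := by
  induction n with
  | zero => simp
  | succ n ih => rw [Finset.sum_range_succ, mul_add, ih]; push_cast; ring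

lemma sum_range_sq_int (n : ℕ) :
    6 * ∑ i ∈ range n, (i : ℤ) ^ 2 = (n : ℤ) * (n - 1) * (2 * n - 1) := by
  induction n with
  | zero => simp
  | succ n ih => rw [Finset.sum_range_succ, mul_add, ih]; push_cast; ring

lemma sum_range_sub_sq (n : ℕ) :
    6 * ∑ i ∈ range n, ∑ j ∈ range n, ((i : ℤ) - j) ^ 2 = (n : ℤ) ^ 2 * (n ^ 2 - 1) := by
  rw [sum_sub_sq (range n) (fun i => (i : ℤ)), card_range]
  have h1 := sum_range_id_int n
  have h2 := sum_range_sq_int n
  have h3 : 6 * (2 * (n : ℤ) * ∑ i ∈ range n, (i : ℤ) ^ 2 - 2 * (∑ i ∈ range n, (i : ℤ)) ^ 2)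
      = 2 * n * (6 * ∑ i ∈ range n, (i : ℤ) ^ 2) - 3 * (2 * ∑ i ∈ range n, (i : ℤ)) ^ 2 := by ring
  rw [h3, h1, h2]
  ring

lemma orderEmb_sub {n : ℕ} (e : Fin n ↪o ℤ) (i j : Fin n) (hij : i ≤ j) :
    (j : ℤ) - (i : ℤ) ≤ e j - e i := by
  obtain ⟨j, hj⟩ := j
  obtain ⟨i, hi⟩ := i
  simp only [Fin.mk_le_mk] at hij
  simp only
  induction j, hij using Nat.le_induction with
  | base => simp
  | succ k hk ih =>
    have h1 := ih (by omega)
    have h2 : e ⟨k, by omega⟩ < e ⟨k + 1, hj⟩ := e.lt_iff_lt.mpr (by simp)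
    push_cast at h1 ⊢
    omega

lemma distinct_ints (s : Finset ℤ) :
    (s.card : ℤ) ^ 2 * ((s.card : ℤ) ^ 2 - 1) ≤ 6 * ∑ a ∈ s, ∑ b ∈ s, (a - b) ^ 2 := by
  set n := s.card with hn
  rw [← sum_range_sub_sq n]
  refine mul_le_mul_of_nonneg_left ?_ (by norm_num)
  set e := s.orderEmbOfFin hn.symm with he
  have himg : Finset.univ.image (fun i : Fin n => e i) = s := by
    rw [← Finset.coe_inj, Finset.coe_image, Finset.coe_univ, Set.image_univ]
    exact s.range_orderEmbOfFin hn.symm
  have hsum : ∀ f : ℤ → ℤ, ∑ a ∈ s, f a = ∑ i : Fin n, f (e i) := by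
    intro f
    conv_lhs => rw [← himg]
    rw [Finset.sum_image]
    intro x _ y _ hxy
    exact e.injective hxy
  rw [hsum]
  have h2 : ∀ i : Fin n, ∑ b ∈ s, (e i - b) ^ 2 = ∑ j : Fin n, (e i - e j) ^ 2 :=
    fun i => hsum (fun b => (e i - b) ^ 2)
  rw [Finset.sum_congr rfl (fun i _ => h2 i), Finset.sum_range]
  refine Finset.sum_le_sum (fun i _ => ?_)
  rw [Finset.sum_range]
  refine Finset.sum_le_sum (fun j _ => ?_)
  rcases le_total i j with h | h
  · have h1 := orderEmb_sub e i j h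
    have h3 : (i : ℤ) ≤ j := by exact_mod_cast h
    nlinarith
  · have h1 := orderEmb_sub e j i h
    have h3 : (j : ℤ) ≤ i := by exact_mod_cast h
    nlinarith

/-! ### The variance inequality in a plane -/

section plane

variable (P L : Type*) [Membership P L] [Fintype P] [Fintype L]

open Classical in
lemma sum_lineSum_eq (g : P → P → ℤ) :
    ∑ l : L, ∑ x ∈ univ.filter (fun x : P => x ∈ l), ∑ y ∈ univ.filter (fun y : P => y ∈ l), g x y
      = ∑ x : P, ∑ y : P, ((univ.filter (fun l : L => x ∈ l ∧ y ∈ l)).card : ℤ) * g x y := by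
  have h1 : ∀ l : L, ∑ x ∈ univ.filter (fun x : P => x ∈ l),
      ∑ y ∈ univ.filter (fun y : P => y ∈ l), g x y
      = ∑ x : P, ∑ y : P, (if x ∈ l ∧ y ∈ l then g x y else 0) := by
    intro l
    rw [Finset.sum_filter]
    refine Finset.sum_congr rfl (fun x _ => ?_)
    by_cases hx : x ∈ l
    · rw [if_pos hx, Finset.sum_filter]
      refine Finset.sum_congr rfl (fun y _ => ?_)
      simp [hx]
    · rw [if_neg hx]
      simp [hx]
  rw [Finset.sum_congr rfl (fun l _ => h1 l), Finset.sum_comm]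
  refine Finset.sum_congr rfl (fun x _ => ?_)
  rw [Finset.sum_comm]
  refine Finset.sum_congr rfl (fun y _ => ?_)
  rw [← Finset.sum_filter, Finset.sum_const, nsmul_eq_mul]

variable [Configuration.ProjectivePlane P L]

open Classical in
lemma card_through (x : P) :
    (univ.filter (fun l : L => x ∈ l)).card = ProjectivePlane.order P L + 1 := by
  rw [← ProjectivePlane.lineCount_eq L x, lineCount, Nat.card_eq_fintype_card,
    Fintype.card_subtype]

omit [Fintype P] in
open Classical in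
lemma card_through_two (x y : P) (hxy : x ≠ y) :
    (univ.filter (fun l : L => x ∈ l ∧ y ∈ l)).card = 1 := by
  rw [Finset.card_eq_one]
  obtain ⟨l, hl, hu⟩ := HasLines.existsUnique_line P L x y hxy
  refine ⟨l, ?_⟩
  ext m
  simp only [mem_filter, mem_univ, true_and, mem_singleton]
  exact ⟨fun h => hu m h, fun h => h ▸ hl⟩

lemma sum_lineSum (w : P → ℕ) :
    ∑ l : L, (lineSum P L w l : ℤ)
      = ((ProjectivePlane.order P L : ℤ) + 1) * ∑ x : P, (w x : ℤ) := by
  classical
  have h1 : ∀ l : L, (lineSum P L w l : ℤ) = ∑ x : P, (if x ∈ l then (w x : ℤ) else 0) := by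
    intro l
    rw [lineSum, Nat.cast_sum, ← Finset.sum_filter]
  rw [Finset.sum_congr rfl (fun l _ => h1 l), Finset.sum_comm, Finset.mul_sum]
  refine Finset.sum_congr rfl (fun x _ => ?_)
  rw [← Finset.sum_filter, Finset.sum_const, nsmul_eq_mul, card_through P L x]
  push_cast
  ring

lemma sum_lineSum_sq (w : P → ℕ) :
    ∑ l : L, (lineSum P L w l : ℤ) ^ 2
      = (ProjectivePlane.order P L : ℤ) * ∑ x : P, (w x : ℤ) ^ 2 + (∑ x : P, (w x : ℤ)) ^ 2 := by
  classical
  have h1 : ∀ l : L, (lineSum P L w l : ℤ) ^ 2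
      = ∑ x ∈ univ.filter (fun x : P => x ∈ l), ∑ y ∈ univ.filter (fun y : P => y ∈ l),
          (w x : ℤ) * (w y : ℤ) := by
    intro l
    rw [lineSum, Nat.cast_sum, sq, Finset.sum_mul_sum]
  rw [Finset.sum_congr rfl (fun l _ => h1 l), sum_lineSum_eq P L (fun x y => (w x : ℤ) * (w y : ℤ)),
    sq (∑ x : P, (w x : ℤ)), Finset.sum_mul_sum, Finset.mul_sum, ← Finset.sum_add_distrib]
  refine Finset.sum_congr rfl (fun x _ => ?_)
  rw [← Finset.add_sum_erase univ _ (mem_univ x),
    ← Finset.add_sum_erase univ (fun y => (w x : ℤ) * (w y : ℤ)) (mem_univ x)]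
  have h2 : (univ.filter (fun l : L => x ∈ l ∧ x ∈ l)).card = ProjectivePlane.order P L + 1 := by
    simp only [and_self]
    exact card_through P L x
  have h3 : ∑ y ∈ univ.erase x, ((univ.filter (fun l : L => x ∈ l ∧ y ∈ l)).card : ℤ)
      * ((w x : ℤ) * (w y : ℤ)) = ∑ y ∈ univ.erase x, (w x : ℤ) * (w y : ℤ) := by
    refine Finset.sum_congr rfl (fun y hy => ?_)
    rw [card_through_two P L x y (fun h => (Finset.mem_erase.mp hy).1 h.symm)]
    push_cast
    ring
  rw [h2, h3]
  push_cast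
  ring

/-- The main inequality. -/
theorem main_ineq (w : P → ℕ) (M : ℕ) (hw : IsLineIrregular P L w) (hM : ∀ x, w x ≤ M) :
    ((ProjectivePlane.order P L : ℤ) + 1) * ((ProjectivePlane.order P L : ℤ) ^ 2
      + ProjectivePlane.order P L + 2) ≤ 3 * ((M : ℤ) - 1) ^ 2 := by
  classical
  set q : ℤ := (ProjectivePlane.order P L : ℤ) with hq
  have hq1 : 1 < q := by
    have := ProjectivePlane.one_lt_order P L
    rw [hq]
    exact_mod_cast this
  set n : ℤ := q ^ 2 + q + 1 with hn
  set W : ℤ := ∑ x : P, (w x : ℤ) with hW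
  set Q : ℤ := ∑ x : P, (w x : ℤ) ^ 2 with hQ
  have hcardP : (Fintype.card P : ℤ) = n := by
    rw [ProjectivePlane.card_points P L]
    push_cast
    rfl
  have hcardL : (Fintype.card L : ℤ) = n := by
    rw [ProjectivePlane.card_lines P L]
    push_cast
    rfl
  -- lower bound
  set s : Finset ℤ := univ.image (fun l : L => (lineSum P L w l : ℤ)) with hs
  have hinj : Function.Injective (fun l : L => (lineSum P L w l : ℤ)) := by
    intro a b hab
    have hab' : (lineSum P L w a : ℤ) = (lineSum P L w b : ℤ) := hab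
    exact hw.2 (by exact_mod_cast hab')
  have hscard : (s.card : ℤ) = n := by
    rw [hs, Finset.card_image_of_injective _ hinj, Finset.card_univ, hcardL]
  have hlow := distinct_ints s
  rw [hscard, hs] at hlow
  have hsum : ∀ f : ℤ → ℤ, ∑ a ∈ univ.image (fun l : L => (lineSum P L w l : ℤ)), f a
      = ∑ l : L, f (lineSum P L w l : ℤ) := by
    intro f
    rw [Finset.sum_image]
    intro x _ y _ hxy
    exact hinj hxy
  rw [hsum] at hlow
  have h2 : ∀ l : L, ∑ b ∈ univ.image (fun l : L => (lineSum P L w l : ℤ)),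
      ((lineSum P L w l : ℤ) - b) ^ 2
      = ∑ m : L, ((lineSum P L w l : ℤ) - (lineSum P L w m : ℤ)) ^ 2 :=
    fun l => hsum (fun b => ((lineSum P L w l : ℤ) - b) ^ 2)
  rw [Finset.sum_congr rfl (fun l _ => h2 l),
    sum_sub_sq univ (fun l : L => (lineSum P L w l : ℤ)), Finset.card_univ, hcardL,
    sum_lineSum P L w, sum_lineSum_sq P L w] at hlow
  rw [← hq, ← hW, ← hQ] at hlow
  -- Popoviciu
  have hpop : 0 ≤ ((M : ℤ) + 1) * W - Q - n * M := by
    have h1 : ((M : ℤ) + 1) * W - Q - n * M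
        = ∑ x : P, ((w x : ℤ) - 1) * ((M : ℤ) - w x) := by
      have h3 : ∀ x ∈ (univ : Finset P), ((w x : ℤ) - 1) * ((M : ℤ) - w x)
          = ((M : ℤ) + 1) * (w x : ℤ) - (w x : ℤ) ^ 2 - M := fun x _ => by ring
      rw [Finset.sum_congr rfl h3, Finset.sum_sub_distrib, Finset.sum_sub_distrib,
        ← Finset.mul_sum, Finset.sum_const, Finset.card_univ, nsmul_eq_mul, hcardP]
    rw [h1]
    refine Finset.sum_nonneg (fun x _ => mul_nonneg ?_ ?_)
    · have := hw.1 x
      have : (1 : ℤ) ≤ (w x : ℤ) := by exact_mod_cast this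
      linarith
    · have := hM x
      have : (w x : ℤ) ≤ (M : ℤ) := by exact_mod_cast this
      linarith
  have hnpos : 0 < n := by rw [hn]; nlinarith
  have hup : 4 * (n * Q - W ^ 2) ≤ n ^ 2 * ((M : ℤ) - 1) ^ 2 := by
    have h3 : 0 ≤ 4 * n * (((M : ℤ) + 1) * W - Q - n * M) := by positivity
    nlinarith [sq_nonneg (2 * W - n * ((M : ℤ) + 1))]
  have hkey : n ^ 2 * (n ^ 2 - 1) ≤ 12 * q * (n * Q - W ^ 2) := by
    have h4 : 6 * (2 * n * (q * Q + W ^ 2) - 2 * ((q + 1) * W) ^ 2)
        = 12 * q * (n * Q - W ^ 2) := by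
      rw [hn]; ring
    rw [← h4]
    exact hlow
  have h5 : n ^ 2 * (n ^ 2 - 1) ≤ n ^ 2 * (3 * q * ((M : ℤ) - 1) ^ 2) := by
    have h6 : 3 * q * (4 * (n * Q - W ^ 2)) ≤ 3 * q * (n ^ 2 * ((M : ℤ) - 1) ^ 2) :=
      mul_le_mul_of_nonneg_left hup (by linarith)
    nlinarith
  have h7 : n ^ 2 - 1 ≤ 3 * q * ((M : ℤ) - 1) ^ 2 := le_of_mul_le_mul_left h5 (by positivity)
  have h8 : q * ((q + 1) * (q ^ 2 + q + 2)) ≤ q * (3 * ((M : ℤ) - 1) ^ 2) := by
    have h9 : q * ((q + 1) * (q ^ 2 + q + 2)) = n ^ 2 - 1 := by rw [hn]; ring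
    rw [h9]
    linarith
  exact le_of_mul_le_mul_left h8 (by linarith)

/-- Line-irregular labellings exist. -/
theorem exists_lineIrregular : ∃ w : P → ℕ, IsLineIrregular P L w := by
  classical
  let e := Fintype.equivFin P
  refine ⟨fun x => 2 ^ (e x : ℕ), fun x => Nat.one_le_two_pow, ?_⟩
  intro l m hlm
  have h1 : ∀ l : L, lineSum P L (fun x => 2 ^ (e x : ℕ)) l
      = ∑ i ∈ (univ.filter (fun x : P => x ∈ l)).image (fun x => (e x : ℕ)), 2 ^ i := by
    intro l
    rw [lineSum, Finset.sum_image]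
    intro x _ y _ hxy
    exact e.injective (Fin.ext hxy)
  rw [h1, h1] at hlm
  have h2 := Finset.geomSum_injective (le_refl 2) hlm
  have h3 : univ.filter (fun x : P => x ∈ l) = univ.filter (fun x : P => x ∈ m) := by
    refine Finset.image_injective ?_ h2
    intro x y hxy
    exact e.injective (Fin.ext hxy)
  have h4 : ∀ x : P, x ∈ l ↔ x ∈ m := by
    intro x
    have := Finset.ext_iff.mp h3 x
    simpa using this
  -- two distinct points on `l`
  have h5 := ProjectivePlane.two_lt_pointCount P l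
  rw [pointCount, Nat.card_eq_fintype_card, Fintype.two_lt_card_iff] at h5
  obtain ⟨a, b, -, hab, -, -⟩ := h5
  rcases Nondegenerate.eq_or_eq a.2 b.2 ((h4 _).mp a.2) ((h4 _).mp b.2) with h | h
  · exact absurd (Subtype.ext h) hab
  · exact h

theorem dualStrength_mem :
    ∃ w : P → ℕ, IsLineIrregular P L w ∧ ∀ x, w x ≤ dualStrength P L := by
  classical
  obtain ⟨w, hw⟩ := exists_lineIrregular P L
  have hne : {M : ℕ | ∃ w : P → ℕ, IsLineIrregular P L w ∧ ∀ x, w x ≤ M}.Nonempty :=
    ⟨∑ x : P, w x, w, hw, fun x => Finset.single_le_sum (fun _ _ => Nat.zero_le _) (mem_univ x)⟩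
  exact Nat.sInf_mem hne

theorem dualStrength_ineq :
    (ProjectivePlane.order P L + 1) * (ProjectivePlane.order P L ^ 2
      + ProjectivePlane.order P L + 2) ≤ 3 * (dualStrength P L - 1) ^ 2 := by
  obtain ⟨w, hw, hM⟩ := dualStrength_mem P L
  have h := main_ineq P L w (dualStrength P L) hw hM
  obtain ⟨p, -⟩ := @ProjectivePlane.exists_config P L _ _
  have h1 : 1 ≤ dualStrength P L := le_trans (hw.1 p) (hM p)
  zify [h1]
  exact h

end plane

/-! ### Planes of prime order -/

lemma exists_plane (p : ℕ) (hp : p.Prime) :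
    ∃ (P L : Type) (_ : Membership P L) (_ : Fintype P) (_ : Fintype L)
      (_ : ProjectivePlane P L), ProjectivePlane.order P L = p := by
  classical
  have : Fact p.Prime := ⟨hp⟩
  let V := Projectivization (ZMod p) (Fin 3 → ZMod p)
  have : Finite V := Projectivization.finite_of_finite _ _
  letI : Fintype V := Fintype.ofFinite V
  refine ⟨V, V, inferInstance, inferInstance, inferInstance, inferInstance, ?_⟩
  have h1 := ProjectivePlane.card_points V V
  have h2 := Projectivization.card_of_finrank (ZMod p) (Fin 3 → ZMod p) (n := 3) (by simp)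
  rw [Nat.card_eq_fintype_card, Nat.card_zmod] at h2
  have h3 : Fintype.card V = p ^ 2 + p + 1 := by
    rw [h2]
    simp [Finset.sum_range_succ]
    ring
  rw [h3] at h1
  nlinarith

/-- The lower bound in cleaner form: `q ^ (3/2) < √3 · s*`. -/
lemma sqrt_bound (P L : Type*) [Membership P L] [Fintype P] [Fintype L] [ProjectivePlane P L] :
    (ProjectivePlane.order P L : ℝ) * √(ProjectivePlane.order P L : ℝ)
      < √3 * (dualStrength P L : ℝ) := by
  have h := dualStrength_ineq P L
  have hq := ProjectivePlane.one_lt_order P L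
  set q := ProjectivePlane.order P L with hqd
  set s := dualStrength P L with hsd
  have h1 : q ^ 3 < 3 * s ^ 2 := by
    have h2 : (s - 1) ^ 2 ≤ s ^ 2 := Nat.pow_le_pow_left (Nat.sub_le _ _) 2
    nlinarith
  have h2 : ((q : ℝ)) ^ 3 < 3 * (s : ℝ) ^ 2 := by exact_mod_cast h1
  have h3 : ((q : ℝ) * √(q : ℝ)) ^ 2 < (√3 * (s : ℝ)) ^ 2 := by
    rw [mul_pow, mul_pow, Real.sq_sqrt (Nat.cast_nonneg q), Real.sq_sqrt (by norm_num)]
    nlinarith
  exact lt_of_pow_lt_pow_left₀ 2 (by positivity) h3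

/-- **Dual irregularity strength of projective planes is not linear in the order.**
* every finite projective plane of order `q` satisfies `3 (s* - 1)² ≥ (q+1)(q²+q+2)`, hence
  `s* > q^{3/2} / √3`;
* for every constant `c`, all finite projective planes of sufficiently large order have
  `s* > c q`;
* for every constant `c` there are such planes (of every large prime order): no constant `c`
  works in `s* ≤ c q`. -/
theorem result :
    (∀ (P L : Type) [Membership P L] [Fintype P] [Fintype L] [ProjectivePlane P L],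
      (∃ w : P → ℕ, IsLineIrregular P L w ∧ ∀ x, w x ≤ dualStrength P L) ∧
      (ProjectivePlane.order P L + 1) * (ProjectivePlane.order P L ^ 2
        + ProjectivePlane.order P L + 2) ≤ 3 * (dualStrength P L - 1) ^ 2 ∧
      (ProjectivePlane.order P L : ℝ) * √(ProjectivePlane.order P L : ℝ)
        < √3 * (dualStrength P L : ℝ)) ∧
    (∀ c : ℝ, ∃ N : ℕ,
      (∀ (P L : Type) [Membership P L] [Fintype P] [Fintype L] [ProjectivePlane P L],
        N ≤ ProjectivePlane.order P L →
          c * (ProjectivePlane.order P L : ℝ) < (dualStrength P L : ℝ))) ∧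
    (∀ p : ℕ, p.Prime → ∃ (P L : Type) (_ : Membership P L) (_ : Fintype P) (_ : Fintype L)
      (_ : ProjectivePlane P L), ProjectivePlane.order P L = p) ∧
    ¬ ∃ c : ℝ, ∀ (P L : Type) [Membership P L] [Fintype P] [Fintype L] [ProjectivePlane P L],
      (dualStrength P L : ℝ) ≤ c * (ProjectivePlane.order P L : ℝ) := by
  have hN : ∀ c : ℝ, ∃ N : ℕ,
      (∀ (P L : Type) [Membership P L] [Fintype P] [Fintype L] [ProjectivePlane P L],
        N ≤ ProjectivePlane.order P L →
          c * (ProjectivePlane.order P L : ℝ) < (dualStrength P L : ℝ)) := by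
    intro c
    obtain ⟨N, hN⟩ := exists_nat_ge (3 * c ^ 2)
    refine ⟨N, ?_⟩
    intro P L _ _ _ _ hle
    have h1 := sqrt_bound P L
    have hq := ProjectivePlane.one_lt_order P L
    set q : ℝ := (ProjectivePlane.order P L : ℝ) with hqd
    set s : ℝ := (dualStrength P L : ℝ) with hsd
    have hq0 : 0 < q := by
      rw [hqd]
      exact_mod_cast (by omega : 0 < ProjectivePlane.order P L)
    have h2 : 3 * c ^ 2 ≤ q := by
      refine hN.trans ?_
      rw [hqd]
      exact_mod_cast hle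
    have h3 : √3 * c ≤ √q := by
      apply Real.le_sqrt_of_sq_le
      rw [mul_pow, Real.sq_sqrt (by norm_num)]
      exact h2
    have h4 : √3 * (c * q) ≤ q * √q := by nlinarith
    have h5 : √3 * (c * q) < √3 * s := lt_of_le_of_lt h4 h1
    exact lt_of_mul_lt_mul_left h5 (Real.sqrt_nonneg 3)
  refine ⟨?_, hN, exists_plane, ?_⟩
  · intro P L _ _ _ _
    exact ⟨dualStrength_mem P L, dualStrength_ineq P L, sqrt_bound P L⟩
  · rintro ⟨c, hc⟩
    obtain ⟨N, hN⟩ := hN c
    obtain ⟨p, hpN, hp⟩ := Nat.exists_infinite_primes N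
    obtain ⟨P, L, i1, i2, i3, i4, h⟩ := exists_plane p hp
    have h1 := hN P L (by rw [h]; exact hpN)
    have h2 := hc P L
    exact absurd h1 (not_lt.mpr h2)

end Pool.Agent.Results.MP_aa9284_co.NotLinear
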